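import Pool.Agent.FNO.Example3

set_option autoImplicit false

open MeasureTheory
open scoped ENNReal

namespace Pool.Agent.Results.MP_ae7024_an.SamplingExponent

open Pool.Agent.FNO

/-- The upper bound `1/2` for the optimal sampling exponent of the classes `K^α(K)` of operators
that are approximable by ReLU Fourier neural operators is not sharp for small `α`: in every
dimension `d ≥ 1` there are an admissible compact convex set `K ⊆ L²((0,1)^d)` and an admissible
probability measure `ρ` on it such that `β⋆(K^α(K))_X < 1/2` for every `0 < α < 1`. More precisely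
`β⋆(K^α(K))_X ≤ α/2` for all `α > 0` and all admissible `(K, ρ)` for which the law of the mean
`∫_Ω u` under `ρ` has bounded density. -/
theorem result (d : ℕ) (hd : 1 ≤ d) :
    (∃ (K : Set (L2 d)) (ρ : Measure (L2 d)), Admissible K ρ ∧
      ∀ α : ℝ, 0 < α → α < 1 → betaStar K ρ (targetClass K α) < 1 / 2) ∧
    (∀ (K : Set (L2 d)) (ρ : Measure (L2 d)), Admissible K ρ → MeanLawBounded ρ →
      ∀ α : ℝ, 0 < α → betaStar K ρ (targetClass K α) ≤ ENNReal.ofReal (α / 2)) := by
  refine ⟨⟨KK d, rho d, admissible_example hd, fun α h0 h1 => ?_⟩,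
    fun K ρ hK hρ α hα => betaStar_le hK hρ hα⟩
  refine (betaStar_le (admissible_example hd) (rho_law d) h0).trans_lt ?_
  have h2 : (1 / 2 : ℝ≥0∞) = ENNReal.ofReal (1 / 2) := by
    rw [ENNReal.ofReal_div_of_pos (by norm_num)]
    simp
  rw [h2]
  exact (ENNReal.ofReal_lt_ofReal_iff (by norm_num)).2 (by linarith)

end Pool.Agent.Results.MP_ae7024_an.SamplingExponent
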